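import Pool.Agent.Results.MP_e182ca_an.MaxLastCoeff

/-!
# The last coefficient of a polynomial and the radius of convergence of its inverse

For every `n ≥ 2` the maximum of `|aₙ|` over the bi-univalent polynomials
`z + a₂ z² + ... + aₙ zⁿ` is `(n-1)^(n-1) / n^n` (the answer to the second question). New: the same
sharp bound, for every radius and without any univalence. Let `P(z) = z + a₂ z² + ... + aₙ zⁿ` be
any polynomial whose local inverse at `0` extends to an analytic function on the disc `|w| < R`.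
Then `|aₙ| R^(n-1) ≤ (n-1)^(n-1) / n^n`. For every `aₙ = a ≠ 0` the largest `R` for which there is
such a polynomial is `Rad n a = ((n-1)^(n-1) / (n^n |a|))^(1/(n-1))`; it is attained by
`z + a zⁿ`, which together with its inverse is even univalent in the disc of this radius.
-/

set_option autoImplicit false

open Polynomial Metric Topology

namespace Pool.Agent.Results.MP_e182ca_an.InverseRadius

open Pool.Agent.Helper714

/-- The local inverse of `P` at `0` extends to an analytic function on the disc `|w| < R`. -/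
def InverseOn (P : ℂ[X]) (R : ℝ) : Prop :=
  ∃ g : ℂ → ℂ, DifferentiableOn ℂ g (ball 0 R) ∧ ∀ᶠ z in 𝓝 (0 : ℂ), g (P.eval z) = z

/-- The local inverse of `P` at `0` extends to an analytic injective function on the disc
`|w| < R`, and `P` is injective on the disc `|z| < R`. -/
def BiUnivalentOn (P : ℂ[X]) (R : ℝ) : Prop :=
  Set.InjOn (fun z => P.eval z) (ball 0 R) ∧
    ∃ g : ℂ → ℂ, DifferentiableOn ℂ g (ball 0 R) ∧ Set.InjOn g (ball 0 R) ∧
      ∀ᶠ z in 𝓝 (0 : ℂ), g (P.eval z) = z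

/-- The polynomial `P` has the form `z + a₂ z² + ... + aₙ zⁿ`. -/
def Normalised (n : ℕ) (P : ℂ[X]) : Prop :=
  P.natDegree ≤ n ∧ P.coeff 0 = 0 ∧ P.coeff 1 = 1

/-- `((n-1)^(n-1) / n^n / |a|)^(1/(n-1))` -/
noncomputable def Rad (n : ℕ) (a : ℂ) : ℝ :=
  (((n : ℝ) - 1) ^ (n - 1) / (n : ℝ) ^ n / ‖a‖) ^ (1 / ((n : ℝ) - 1))

/-- the bound on the unit disc, without univalence -/
theorem bound_one (n : ℕ) (hn : 2 ≤ n) (P : ℂ[X]) (hdeg : P.natDegree ≤ n) (hP0 : P.coeff 0 = 0)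
    (hP1 : P.coeff 1 = 1) (hinv : InverseOn P 1) :
    ‖P.coeff n‖ ≤ ((n : ℝ) - 1) ^ (n - 1) / (n : ℝ) ^ n := by
  obtain ⟨g, hg, hloc⟩ := hinv
  obtain ⟨m, rfl⟩ : ∃ m, n = m + 1 := ⟨n - 1, by omega⟩
  have hm : 1 ≤ m := by omega
  have hPe0 : P.eval 0 = 0 := by rw [← coeff_zero_eq_eval_zero, hP0]
  have hg0 : g 0 = 0 := by
    have := hloc.self_of_nhds
    simpa [hPe0] using this
  have hder : P.derivative.eval 0 = 1 := by
    rw [← coeff_zero_eq_eval_zero, coeff_derivative]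
    simp [hP1]
  have hPd : HasStrictDerivAt (fun z => P.eval z) 1 0 := by
    have := P.hasStrictDerivAt 0
    rwa [hder] at this
  have hmap : Filter.map (fun z => P.eval z) (𝓝 (0 : ℂ)) = 𝓝 0 := by
    have := hPd.map_nhds_eq one_ne_zero
    rwa [hPe0] at this
  have hPg' : ∀ᶠ w in 𝓝 (0 : ℂ), P.eval (g w) = w := by
    rw [← hmap, Filter.eventually_map]
    filter_upwards [hloc] with z hz
    show P.eval (g (P.eval z)) = P.eval z
    rw [hz]
  have hPg : ∀ w ∈ Metric.ball (0 : ℂ) 1, P.eval (g w) = w := by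
    have h1 : AnalyticOnNhd ℂ (fun w => P.eval (g w)) (Metric.ball 0 1) := by
      apply DifferentiableOn.analyticOnNhd _ Metric.isOpen_ball
      exact P.differentiable.comp_differentiableOn hg
    have h2 : AnalyticOnNhd ℂ (fun w : ℂ => w) (Metric.ball 0 1) := fun w _ => analyticAt_id
    exact h1.eqOn_of_preconnected_of_eventuallyEq h2 (convex_ball (0 : ℂ) 1).isPreconnected
      (Metric.mem_ball_self one_pos) hPg'
  have h := Main.main_bound m hm P hdeg hP0 hP1 g hg hg0 hPg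
  have e1 : (((m + 1 : ℕ) : ℝ) - 1) = m := by push_cast; ring
  rw [e1]
  push_cast
  simpa using h

/-- scaling a normalised polynomial -/
theorem scale_normalised (n : ℕ) (P : ℂ[X]) (hP : Normalised n P) (μ : ℂ) (hμ : μ ≠ 0) :
    Normalised n (C μ⁻¹ * P.comp (C μ * X)) ∧
      (∀ z, (C μ⁻¹ * P.comp (C μ * X)).eval z = μ⁻¹ * P.eval (μ * z)) ∧
      ∀ k, (C μ⁻¹ * P.comp (C μ * X)).coeff k = μ⁻¹ * (P.coeff k * μ ^ k) := by
  have hc : ∀ k, (C μ⁻¹ * P.comp (C μ * X)).coeff k = μ⁻¹ * (P.coeff k * μ ^ k) := by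
    intro k
    rw [coeff_C_mul, comp_C_mul_X_coeff]
  refine ⟨⟨?_, ?_, ?_⟩, fun z => by simp [eval_comp], hc⟩
  · rw [natDegree_le_iff_coeff_eq_zero]
    intro k hk
    rw [hc, coeff_eq_zero_of_natDegree_lt (lt_of_le_of_lt hP.1 hk)]
    simp
  · rw [hc, hP.2.1]
    simp
  · rw [hc, hP.2.2]
    field_simp

/-- scaling an inverse -/
theorem scale_eventually (P : ℂ[X]) (μ : ℂ) (hμ : μ ≠ 0) (g : ℂ → ℂ)
    (h : ∀ᶠ z in 𝓝 (0 : ℂ), g (P.eval z) = z) :
    ∀ᶠ z in 𝓝 (0 : ℂ), μ⁻¹ * g (μ * (μ⁻¹ * P.eval (μ * z))) = z := by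
  have h1 : Filter.Tendsto (fun z : ℂ => μ * z) (𝓝 0) (𝓝 0) := by
    have : Continuous (fun z : ℂ => μ * z) := by fun_prop
    simpa using this.tendsto 0
  filter_upwards [h1.eventually h] with z hz
  rw [mul_inv_cancel_left₀ hμ, hz, inv_mul_cancel_left₀ hμ]

theorem scale_ball (μ : ℂ) (hμ : μ ≠ 0) (R S : ℝ) (hRS : ‖μ‖ * R ≤ S) :
    ∀ w ∈ ball (0 : ℂ) R, μ * w ∈ ball (0 : ℂ) S := by
  intro w hw
  rw [mem_ball_zero_iff] at hw ⊢
  rw [norm_mul]
  exact lt_of_lt_of_le (mul_lt_mul_of_pos_left hw (norm_pos_iff.2 hμ)) hRS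

/-- the bound for every radius -/
theorem bound (n : ℕ) (hn : 2 ≤ n) (P : ℂ[X]) (hP : Normalised n P) (R : ℝ) (hR : 0 < R)
    (hinv : InverseOn P R) :
    ‖P.coeff n‖ * R ^ (n - 1) ≤ ((n : ℝ) - 1) ^ (n - 1) / (n : ℝ) ^ n := by
  obtain ⟨g, hg, hloc⟩ := hinv
  have hμ : (R : ℂ) ≠ 0 := by exact_mod_cast hR.ne'
  obtain ⟨h1, h2, h3⟩ := scale_normalised n P hP (R : ℂ) hμ
  have h4 := bound_one n hn _ h1.1 h1.2.1 h1.2.2 ⟨fun w => (R : ℂ)⁻¹ * g (R * w), ?_, ?_⟩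
  · rw [h3, norm_mul, norm_mul, norm_inv, norm_pow, Complex.norm_real,
      Real.norm_of_nonneg hR.le] at h4
    have h5 : R⁻¹ * (‖P.coeff n‖ * R ^ n) = ‖P.coeff n‖ * R ^ (n - 1) := by
      have : R ^ n = R ^ (n - 1) * R := by
        rw [← pow_succ]
        congr 1
        omega
      rw [this]
      field_simp
    rwa [h5] at h4
  · apply DifferentiableOn.const_mul
    apply hg.comp
    · fun_prop
    · apply scale_ball _ hμ
      rw [Complex.norm_real, Real.norm_of_nonneg hR.le, mul_one]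
  · have h5 := scale_eventually P R hμ g hloc
    filter_upwards [h5] with z hz
    rw [h2]
    exact hz

/-- the extremal polynomials -/
theorem attained (n : ℕ) (hn : 2 ≤ n) (a : ℂ) (R : ℝ) (hR : 0 < R)
    (ha : ‖a‖ * R ^ (n - 1) = ((n : ℝ) - 1) ^ (n - 1) / (n : ℝ) ^ n) :
    Normalised n (X + C a * X ^ n) ∧ (X + C a * X ^ n : ℂ[X]).coeff n = a ∧
      BiUnivalentOn (X + C a * X ^ n) R := by
  have hn2 : (2 : ℝ) ≤ n := by exact_mod_cast hn
  set τ : ℝ := ((n : ℝ) - 1) ^ (n - 1) / (n : ℝ) ^ n with hτ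
  have hτ0 : 0 < τ := by
    have : (0 : ℝ) < (n : ℝ) - 1 := by linarith
    positivity
  have hτc : (τ : ℂ) ≠ 0 := by exact_mod_cast hτ0.ne'
  obtain ⟨μ, hμ⟩ := IsAlgClosed.exists_pow_nat_eq (a / τ) (show 0 < n - 1 by omega)
  have hnorm : ‖μ‖ * R = 1 := by
    have h1 : (‖μ‖ * R) ^ (n - 1) = 1 := by
      rw [mul_pow, ← norm_pow, hμ, norm_div, Complex.norm_real, Real.norm_of_nonneg hτ0.le,
        div_mul_eq_mul_div, ha, div_self hτ0.ne']
    exact (pow_eq_one_iff_of_nonneg (by positivity) (by omega)).1 h1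
  have hμ0 : μ ≠ 0 := by
    rintro rfl
    simp at hnorm
  obtain ⟨q1, q2, q3, q4⟩ := L8.extremal n hn
  obtain ⟨-, -, -, hinj, g, hg, hginj, hloc⟩ := q4
  obtain ⟨h1, h2, h3⟩ := scale_normalised n _ ⟨q1, q2, q3⟩ μ hμ0
  have hP : (C μ⁻¹ * (X + C ((τ : ℝ) : ℂ) * X ^ n : ℂ[X]).comp (C μ * X)) = X + C a * X ^ n := by
    have e1 : a = τ * μ ^ (n - 1) := by
      rw [hμ]
      field_simp
    have e2 : μ ^ n = μ ^ (n - 1) * μ := by
      rw [← pow_succ]
      congr 1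
      omega
    apply Polynomial.funext
    intro z
    simp only [eval_mul, eval_C, eval_comp, eval_add, eval_X, eval_pow]
    rw [mul_pow, e2, e1]
    field_simp
  rw [hP] at h1 h2 h3
  refine ⟨h1, ?_, ?_, fun w => μ⁻¹ * g (μ * w), ?_, ?_, ?_⟩
  · have hX : (X : ℂ[X]).coeff n = 0 := by
      rw [coeff_X]
      simp
      omega
    rw [coeff_add, coeff_C_mul, coeff_X_pow, if_pos rfl, mul_one, hX, zero_add]
  · intro z hz w hw h
    simp only [h2] at h
    have h5 := mul_left_cancel₀ (inv_ne_zero hμ0) h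
    exact mul_left_cancel₀ hμ0 (hinj (scale_ball μ hμ0 R 1 hnorm.le z hz)
      (scale_ball μ hμ0 R 1 hnorm.le w hw) h5)
  · apply DifferentiableOn.const_mul
    apply hg.comp
    · fun_prop
    · exact scale_ball μ hμ0 R 1 hnorm.le
  · intro z hz w hw h
    have h5 := mul_left_cancel₀ (inv_ne_zero hμ0) h
    exact mul_left_cancel₀ hμ0 (hginj (scale_ball μ hμ0 R 1 hnorm.le z hz)
      (scale_ball μ hμ0 R 1 hnorm.le w hw) h5)
  · have h5 := scale_eventually _ μ hμ0 g hloc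
    filter_upwards [h5] with z hz
    rw [h2]
    exact hz

theorem Rad_pos (n : ℕ) (hn : 2 ≤ n) (a : ℂ) (ha : a ≠ 0) : 0 < Rad n a := by
  have hn2 : (2 : ℝ) ≤ n := by exact_mod_cast hn
  have : (0 : ℝ) < (n : ℝ) - 1 := by linarith
  have := norm_pos_iff.2 ha
  unfold Rad
  positivity

theorem Rad_pow (n : ℕ) (hn : 2 ≤ n) (a : ℂ) (ha : a ≠ 0) :
    ‖a‖ * Rad n a ^ (n - 1) = ((n : ℝ) - 1) ^ (n - 1) / (n : ℝ) ^ n := by
  have hn2 : (2 : ℝ) ≤ n := by exact_mod_cast hn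
  have h1 : (0 : ℝ) < (n : ℝ) - 1 := by linarith
  have h2 := norm_pos_iff.2 ha
  unfold Rad
  have h3 : (0 : ℝ) ≤ ((n : ℝ) - 1) ^ (n - 1) / (n : ℝ) ^ n / ‖a‖ := by positivity
  rw [← Real.rpow_natCast, ← Real.rpow_mul h3]
  have h4 : 1 / ((n : ℝ) - 1) * ((n - 1 : ℕ) : ℝ) = 1 := by
    rw [Nat.cast_sub (by omega)]
    push_cast
    field_simp
  rw [h4, Real.rpow_one]
  field_simp

theorem result (n : ℕ) (hn : 2 ≤ n) :
    -- the answer to the second question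
    IsGreatest {x : ℝ | ∃ P ∈ V n, x = ‖P.coeff n‖} (((n : ℝ) - 1) ^ (n - 1) / (n : ℝ) ^ n) ∧
    -- the bound for every radius, without univalence
    (∀ (P : ℂ[X]) (R : ℝ), Normalised n P → 0 < R → InverseOn P R →
      ‖P.coeff n‖ * R ^ (n - 1) ≤ ((n : ℝ) - 1) ^ (n - 1) / (n : ℝ) ^ n) ∧
    -- it is sharp for every last coefficient
    ∀ a : ℂ, a ≠ 0 →
      IsGreatest {R : ℝ | ∃ P : ℂ[X], Normalised n P ∧ P.coeff n = a ∧ InverseOn P R} (Rad n a) ∧
      (X + C a * X ^ n : ℂ[X]).coeff n = a ∧ BiUnivalentOn (X + C a * X ^ n) (Rad n a) := by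
  refine ⟨MaxLastCoeff.result n hn, fun P R hP hR hinv => bound n hn P hP R hR hinv, ?_⟩
  intro a ha
  obtain ⟨h1, h2, h3⟩ := attained n hn a (Rad n a) (Rad_pos n hn a ha) (Rad_pow n hn a ha)
  refine ⟨⟨⟨_, h1, h2, ?_⟩, ?_⟩, h2, h3⟩
  · obtain ⟨-, g, hg, -, hloc⟩ := h3
    exact ⟨g, hg, hloc⟩
  · rintro R ⟨P, hP, hPa, hinv⟩
    by_contra hcon
    push Not at hcon
    have hR : 0 < R := (Rad_pos n hn a ha).trans hcon
    have h4 := bound n hn P hP R hR hinv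
    rw [hPa, ← Rad_pow n hn a ha] at h4
    have h5 := le_of_mul_le_mul_left h4 (norm_pos_iff.2 ha)
    have h6 := pow_lt_pow_left₀ hcon (Rad_pos n hn a ha).le (show n - 1 ≠ 0 by omega)
    linarith

end Pool.Agent.Results.MP_e182ca_an.InverseRadius
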